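import Pool.Agent.Q93.AN.Power

set_option autoImplicit false

namespace Pool.Agent.Q93.AN

open Filter Topology

variable {E : Type*} [NormedAddCommGroup E] [NormedSpace ℝ E]

/-- weakly null sequences -/
def WN (w : ℕ → E) : Prop := ∀ f : StrongDual ℝ E, Tendsto (fun n => f (w n)) atTop (𝓝 0)

lemma WN.neg {w : ℕ → E} (h : WN w) : WN fun n => -w n := by
  intro f
  have := (h f).neg
  simpa using this

lemma WN.comp {w : ℕ → E} (h : WN w) {k : ℕ → ℕ} (hk : Tendsto k atTop atTop) :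
    WN fun n => w (k n) := fun f => (h f).comp hk

/-- bounded sequences have weakly convergent subsequences -/
def BallW (E : Type*) [NormedAddCommGroup E] [NormedSpace ℝ E] : Prop :=
  ∀ (C : ℝ) (u : ℕ → E), (∀ n, ‖u n‖ ≤ C) → ∃ a : E, ∃ φ : ℕ → ℕ, StrictMono φ ∧
    ∀ f : StrongDual ℝ E, Tendsto (fun k => f (u (φ k))) atTop (𝓝 (f a))

/-- there is a weakly null sequence of unit vectors -/
lemma exists_wn (hinf : ¬ FiniteDimensional ℝ E) (hK : BallW E) :
    ∃ w : ℕ → E, (∀ n, ‖w n‖ = 1) ∧ WN w := by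
  obtain ⟨R, f, hR, hf1, hf2⟩ := exists_seq_norm_le_one_le_norm_sub (𝕜 := ℝ) hinf
  obtain ⟨a, ψ, hψ, hlim⟩ := hK R f hf1
  have hv1 : ∀ k, 1 ≤ ‖f (ψ (k + 1)) - f (ψ k)‖ := fun k =>
    hf2 (hψ (Nat.lt_succ_self k)).ne'
  refine ⟨fun k => ‖f (ψ (k + 1)) - f (ψ k)‖⁻¹ • (f (ψ (k + 1)) - f (ψ k)), fun k => ?_, ?_⟩
  · have : ‖f (ψ (k + 1)) - f (ψ k)‖ ≠ 0 := by have := hv1 k; linarith
    rw [norm_smul, norm_inv, norm_norm, inv_mul_cancel₀ this]
  · intro g
    have h1 : Tendsto (fun k => g (f (ψ (k + 1)) - f (ψ k))) atTop (𝓝 0) := by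
      have := ((hlim g).comp (tendsto_add_atTop_nat 1)).sub (hlim g)
      simp only [Function.comp, sub_self] at this
      simpa only [map_sub] using this
    refine squeeze_zero_norm (fun k => ?_) (tendsto_zero_iff_norm_tendsto_zero.1 h1)
    rw [map_smul, norm_smul, norm_inv, norm_norm]
    calc ‖f (ψ (k + 1)) - f (ψ k)‖⁻¹ * ‖g (f (ψ (k + 1)) - f (ψ k))‖
        ≤ 1 * ‖g (f (ψ (k + 1)) - f (ψ k))‖ :=
          mul_le_mul_of_nonneg_right (inv_le_one_of_one_le₀ (hv1 k)) (norm_nonneg _)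
      _ = _ := one_mul _

/-- the asymptotic condition -/
def Asy (E : Type*) [NormedAddCommGroup E] [NormedSpace ℝ E] (φ : ℝ → ℝ) : Prop :=
  ∀ x : E, ‖x‖ = 1 → ∀ t : ℝ, 0 < t → ∀ w : ℕ → E, (∀ n, ‖w n‖ = 1) → WN w →
    Tendsto (fun n => ‖x + t • w n‖) atTop (𝓝 (φ t))

/-- the asymptotic norm -/
noncomputable def NN (φ : ℝ → ℝ) (s t : ℝ) : ℝ :=
  if s = 0 then t else if t = 0 then s else s * φ (t / s)

variable {φ : ℝ → ℝ}

lemma lim1 (h : Asy E φ) (u : E) {t : ℝ} (ht : 0 ≤ t) {w : ℕ → E} (hw : ∀ n, ‖w n‖ = 1)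
    (hw0 : WN w) : Tendsto (fun n => ‖u + t • w n‖) atTop (𝓝 (NN φ ‖u‖ t)) := by
  unfold NN
  by_cases hu : ‖u‖ = 0
  · rw [if_pos hu]
    rw [norm_eq_zero] at hu
    simp only [hu, zero_add, norm_smul, hw, mul_one, Real.norm_of_nonneg ht]
    exact tendsto_const_nhds
  · rw [if_neg hu]
    by_cases ht0 : t = 0
    · rw [if_pos ht0]
      simp only [ht0, zero_smul, add_zero]
      exact tendsto_const_nhds
    · rw [if_neg ht0]
      have hu0 : 0 < ‖u‖ := lt_of_le_of_ne (norm_nonneg u) (Ne.symm hu)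
      have htp : 0 < t := lt_of_le_of_ne ht (Ne.symm ht0)
      have h1 := h (‖u‖⁻¹ • u) (by rw [norm_smul, norm_inv, norm_norm, inv_mul_cancel₀ hu])
        (t / ‖u‖) (by positivity) w hw hw0
      have h2 := h1.const_mul ‖u‖
      refine h2.congr fun n => ?_
      rw [← abs_of_pos hu0, ← Real.norm_eq_abs, ← norm_smul, Real.norm_eq_abs, abs_of_pos hu0,
        smul_add, smul_smul, smul_smul, mul_inv_cancel₀ hu, one_smul, mul_div_cancel₀ _ hu]

lemma lim1' (h : Asy E φ) {u : E} {s t : ℝ} (hs : ‖u‖ = s) (ht : 0 ≤ t) {w : ℕ → E}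
    (hw : ∀ n, ‖w n‖ = 1) (hw0 : WN w) :
    Tendsto (fun n => ‖u + t • w n‖) atTop (𝓝 (NN φ s t)) := by
  rw [← hs]; exact lim1 h u ht hw hw0

section props
variable (h : Asy E φ) {w : ℕ → E} (hw : ∀ n, ‖w n‖ = 1) (hw0 : WN w)
include h hw hw0

lemma nn_hom (c s t : ℝ) (hc : 0 ≤ c) (hs : 0 ≤ s) (ht : 0 ≤ t) :
    NN φ (c * s) (c * t) = c * NN φ s t := by
  have hx : ∀ a : ℝ, 0 ≤ a → ‖a • w 0‖ = a := fun a ha => by
    rw [norm_smul, hw, mul_one, Real.norm_of_nonneg ha]
  have h1 := lim1' h (hx (c * s) (by positivity)) (t := c * t) (by positivity) hw hw0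
  have h2 := (lim1' h (hx s hs) ht hw hw0).const_mul c
  refine tendsto_nhds_unique h1 (h2.congr fun n => ?_)
  conv_lhs => rw [← abs_of_nonneg hc, ← Real.norm_eq_abs, ← norm_smul]
  rw [smul_add, smul_smul, smul_smul]

lemma nn_zl (t : ℝ) : NN φ 0 t = t := by
  unfold NN; simp

lemma nn_zr (s : ℝ) : NN φ s 0 = s := by
  unfold NN
  by_cases hs : s = 0 <;> simp [hs]

lemma nn_lip (a b t : ℝ) (ha : 0 ≤ a) (hb : 0 ≤ b) (ht : 0 ≤ t) :
    |NN φ a t - NN φ b t| ≤ |a - b| := by
  have hx : ∀ a : ℝ, 0 ≤ a → ‖a • w 0‖ = a := fun a ha => by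
    rw [norm_smul, hw, mul_one, Real.norm_of_nonneg ha]
  have h1 := lim1' h (hx a ha) ht hw hw0
  have h2 := lim1' h (hx b hb) ht hw hw0
  refine le_of_tendsto (h1.sub h2).abs (Eventually.of_forall fun n => ?_)
  refine (abs_norm_sub_norm_le _ _).trans ?_
  have : a • w 0 + t • w n - (b • w 0 + t • w n) = (a - b) • w 0 := by
    rw [sub_smul]; abel
  rw [this, norm_smul, hw, mul_one, Real.norm_eq_abs]

lemma nn_mono_left (s s' t : ℝ) (hs : 0 ≤ s) (hss : s ≤ s') (ht : 0 ≤ t) :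
    NN φ s t ≤ NN φ s' t := by
  rcases hs.eq_or_lt with h0 | h0
  · -- s = 0
    rcases (hs.trans hss).eq_or_lt with h0' | h0'
    · rw [← h0, ← h0']
    · have hx : ‖s' • w 0‖ = s' := by rw [norm_smul, hw, mul_one, Real.norm_of_nonneg h0'.le]
      have hx' : ‖-(s' • w 0)‖ = s' := by rw [norm_neg, hx]
      have h1 := lim1' h hx ht hw hw0
      have h2 := lim1' h hx' ht hw hw0
      have h3 := (h1.add h2).const_mul (1 / 2)
      have h4 : (1 / 2) * (NN φ s' t + NN φ s' t) = NN φ s' t := by ring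
      rw [h4] at h3
      rw [← h0, nn_zl h hw hw0]
      refine ge_of_tendsto h3 (Eventually.of_forall fun n => ?_)
      have h5 : ‖(s' • w 0 + t • w n) + (-(s' • w 0) + t • w n)‖ ≤
          ‖s' • w 0 + t • w n‖ + ‖-(s' • w 0) + t • w n‖ := norm_add_le _ _
      have h6 : (s' • w 0 + t • w n) + (-(s' • w 0) + t • w n) = (2 * t) • w n := by
        rw [two_mul, add_smul]; abel
      rw [h6, norm_smul, hw, mul_one, Real.norm_of_nonneg (by positivity)] at h5
      linarith
  · have h0' : 0 < s' := lt_of_lt_of_le h0 hss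
    have hx : ‖s' • w 0‖ = s' := by rw [norm_smul, hw, mul_one, Real.norm_of_nonneg h0'.le]
    have hx' : ‖-(s' • w 0)‖ = s' := by rw [norm_neg, hx]
    have hxs : ‖s • w 0‖ = s := by rw [norm_smul, hw, mul_one, Real.norm_of_nonneg h0.le]
    have h1 := lim1' h hx ht hw hw0
    have h2 := lim1' h hx' ht hw hw0
    have h0s := lim1' h hxs ht hw hw0
    set l : ℝ := (1 + s / s') / 2 with hl
    have hl1 : l ≤ 1 := by
      have : s / s' ≤ 1 := (div_le_one h0').2 hss
      rw [hl]; linarith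
    have hl0 : 0 ≤ l := by positivity
    have h3 := (h1.const_mul l).add (h2.const_mul (1 - l))
    have h4 : l * NN φ s' t + (1 - l) * NN φ s' t = NN φ s' t := by ring
    rw [h4] at h3
    refine le_of_tendsto_of_tendsto h0s h3 (Eventually.of_forall fun n => ?_)
    have h5 : s • w 0 + t • w n =
        l • (s' • w 0 + t • w n) + (1 - l) • (-(s' • w 0) + t • w n) := by
      have e1 : l * s' - (1 - l) * s' = s := by
        rw [hl]; field_simp; ring
      have : l • (s' • w 0 + t • w n) + (1 - l) • (-(s' • w 0) + t • w n) =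
          (l * s' - (1 - l) * s') • w 0 + (l * t + (1 - l) * t) • w n := by
        module
      rw [this, e1]
      congr 2
      ring
    show ‖s • w 0 + t • w n‖ ≤ l * ‖s' • w 0 + t • w n‖ + (1 - l) * ‖-(s' • w 0) + t • w n‖
    rw [h5]
    refine (norm_add_le _ _).trans (le_of_eq ?_)
    rw [norm_smul, norm_smul, Real.norm_of_nonneg hl0, Real.norm_of_nonneg (by linarith)]

lemma nn_mono_right (s t t' : ℝ) (hs : 0 ≤ s) (ht : 0 ≤ t) (htt : t ≤ t') :
    NN φ s t ≤ NN φ s t' := by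
  have hxs : ‖s • w 0‖ = s := by rw [norm_smul, hw, mul_one, Real.norm_of_nonneg hs]
  rcases (ht.trans htt).eq_or_lt with h0' | h0'
  · have : t = 0 := by linarith
    rw [this, ← h0']
  · have h1 := lim1' h hxs h0'.le hw hw0
    have h2 := lim1' h hxs h0'.le (w := fun n => -w n) (fun n => by rw [norm_neg, hw]) hw0.neg
    have h0s := lim1' h hxs ht hw hw0
    set l : ℝ := (1 + t / t') / 2 with hl
    have hl1 : l ≤ 1 := by
      have : t / t' ≤ 1 := (div_le_one h0').2 htt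
      rw [hl]; linarith
    have hl0 : 0 ≤ l := by positivity
    have h3 := (h1.const_mul l).add (h2.const_mul (1 - l))
    have h4 : l * NN φ s t' + (1 - l) * NN φ s t' = NN φ s t' := by ring
    rw [h4] at h3
    refine le_of_tendsto_of_tendsto h0s h3 (Eventually.of_forall fun n => ?_)
    have h5 : s • w 0 + t • w n =
        l • (s • w 0 + t' • w n) + (1 - l) • (s • w 0 + t' • -w n) := by
      have e1 : l * t' - (1 - l) * t' = t := by
        rw [hl]; field_simp; ring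
      have : l • (s • w 0 + t' • w n) + (1 - l) • (s • w 0 + t' • -w n) =
          (l * s + (1 - l) * s) • w 0 + (l * t' - (1 - l) * t') • w n := by
        module
      rw [this, e1]
      congr 2
      ring
    show ‖s • w 0 + t • w n‖ ≤ l * ‖s • w 0 + t' • w n‖ + (1 - l) * ‖s • w 0 + t' • -w n‖
    rw [h5]
    refine (norm_add_le _ _).trans (le_of_eq ?_)
    rw [norm_smul, norm_smul, Real.norm_of_nonneg hl0, Real.norm_of_nonneg (by linarith)]

/-- sequences whose norms converge -/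
lemma lim2 (u : E) {v : ℕ → E} {t : ℝ} (ht : Tendsto (fun n => ‖v n‖) atTop (𝓝 t))
    (hv : WN v) : Tendsto (fun n => ‖u + v n‖) atTop (𝓝 (NN φ ‖u‖ t)) := by
  have ht0 : 0 ≤ t := ge_of_tendsto' ht fun n => norm_nonneg _
  rcases ht0.eq_or_lt with h0 | h0
  · rw [← h0, nn_zr h hw hw0]
    rw [← h0] at ht
    have h1 : Tendsto (fun n => u + v n) atTop (𝓝 (u + 0)) :=
      tendsto_const_nhds.add (tendsto_zero_iff_norm_tendsto_zero.2 ht)
    rw [add_zero] at h1
    exact h1.norm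
  · obtain ⟨n0, hn0⟩ := eventually_atTop.1
      (ht.eventually (lt_mem_nhds (show t / 2 < t by linarith)))
    have hpos : ∀ n, 0 < ‖v (n + n0)‖ := fun n => by
      have := hn0 (n + n0) (by omega)
      linarith
    have ht' : Tendsto (fun n => ‖v (n + n0)‖) atTop (𝓝 t) :=
      (tendsto_add_atTop_iff_nat n0).2 ht
    have hv' : WN fun n => v (n + n0) := fun f => (tendsto_add_atTop_iff_nat n0).2 (hv f)
    have hinv : Tendsto (fun n => ‖v (n + n0)‖⁻¹) atTop (𝓝 t⁻¹) := ht'.inv₀ h0.ne'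
    have h1 : Tendsto (fun n => ‖u + t • (‖v (n + n0)‖⁻¹ • v (n + n0))‖) atTop
        (𝓝 (NN φ ‖u‖ t)) := by
      refine lim1 h u h0.le (fun n => ?_) (fun f => ?_)
      · rw [norm_smul, norm_inv, norm_norm, inv_mul_cancel₀ (hpos n).ne']
      · have := hinv.mul (hv' f)
        rw [mul_zero] at this
        simpa only [map_smul, smul_eq_mul] using this
    refine (tendsto_add_atTop_iff_nat n0).1 ?_
    have h2 : Tendsto (fun n => ‖u + v (n + n0)‖ - ‖u + t • (‖v (n + n0)‖⁻¹ • v (n + n0))‖) atTop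
        (𝓝 0) := by
      have h3 : Tendsto (fun n => |‖v (n + n0)‖ - t|) atTop (𝓝 0) := by
        have := (ht'.sub_const t).abs
        rwa [sub_self, abs_zero] at this
      refine squeeze_zero_norm (fun n => ?_) h3
      rw [Real.norm_eq_abs]
      refine (abs_norm_sub_norm_le _ _).trans (le_of_eq ?_)
      have e : u + v (n + n0) - (u + t • (‖v (n + n0)‖⁻¹ • v (n + n0))) =
          ((‖v (n + n0)‖ - t) * ‖v (n + n0)‖⁻¹) • v (n + n0) := by
        rw [sub_mul, mul_inv_cancel₀ (hpos n).ne', sub_smul, one_smul, smul_smul]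
        abel
      rw [e, norm_smul, Real.norm_eq_abs, abs_mul, abs_inv, abs_of_pos (hpos n), mul_assoc,
        inv_mul_cancel₀ (hpos n).ne', mul_one]
    have h4 := h1.add h2
    rw [add_zero] at h4
    refine h4.congr fun n => ?_
    ring

lemma nn_assoc (r s t : ℝ) (hr : 0 ≤ r) (hs : 0 ≤ s) (ht : 0 ≤ t) :
    NN φ (NN φ r s) t = NN φ r (NN φ s t) := by
  set u : E := r • w 0 with hu
  have hur : ‖u‖ = r := by rw [hu, norm_smul, hw, mul_one, Real.norm_of_nonneg hr]
  have hsw : ∀ m, ‖s • w m‖ = s := fun m => by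
    rw [norm_smul, hw, mul_one, Real.norm_of_nonneg hs]
  have hex : ∀ m : ℕ, ∃ k : ℕ, m ≤ k ∧
      |‖s • w m + t • w k‖ - NN φ s t| ≤ 1 / ((m : ℝ) + 1) ∧
      |‖(u + s • w m) + t • w k‖ - NN φ ‖u + s • w m‖ t| ≤ 1 / ((m : ℝ) + 1) := by
    intro m
    have hm : (0 : ℝ) < 1 / ((m : ℝ) + 1) := by positivity
    have h1 := lim1' h (hsw m) ht hw hw0
    have h2 := lim1 h (u + s • w m) ht hw hw0
    have e1 := (Metric.tendsto_nhds.1 h1) _ hm
    have e2 := (Metric.tendsto_nhds.1 h2) _ hm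
    obtain ⟨k, hk1, hk2, hk3⟩ := ((e1.and e2).and (eventually_ge_atTop m)).exists.imp
      fun k hk => (⟨hk.2, hk.1.1, hk.1.2⟩ : _ ∧ _ ∧ _)
    rw [Real.dist_eq] at hk2 hk3
    exact ⟨k, hk1, hk2.le, hk3.le⟩
  choose k hk1 hk2 hk3 using hex
  have hkt : Tendsto k atTop atTop := tendsto_atTop_mono hk1 tendsto_id
  have hone : Tendsto (fun m : ℕ => 1 / ((m : ℝ) + 1)) atTop (𝓝 0) :=
    tendsto_one_div_add_atTop_nhds_zero_nat
  -- the sequence v
  have hvn : Tendsto (fun m => ‖s • w m + t • w (k m)‖) atTop (𝓝 (NN φ s t)) := by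
    rw [tendsto_iff_dist_tendsto_zero]
    refine squeeze_zero (fun _ => dist_nonneg) (fun m => ?_) hone
    rw [Real.dist_eq]
    exact hk2 m
  have hvw : WN fun m => s • w m + t • w (k m) := by
    intro f
    have := ((hw0 f).const_mul s).add (((hw0 f).comp hkt).const_mul t)
    simp only [mul_zero, add_zero, Function.comp] at this
    simpa only [map_add, map_smul, smul_eq_mul] using this
  have hA := lim2 h hw hw0 u hvn hvw
  rw [hur] at hA
  -- the other side
  have hB : Tendsto (fun m => NN φ ‖u + s • w m‖ t) atTop (𝓝 (NN φ (NN φ r s) t)) := by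
    have h1 := lim1' h hur hs hw hw0
    have hN0 : 0 ≤ NN φ r s := ge_of_tendsto' h1 fun n => norm_nonneg _
    rw [tendsto_iff_dist_tendsto_zero] at h1 ⊢
    refine squeeze_zero (fun _ => dist_nonneg) (fun m => ?_) h1
    rw [Real.dist_eq, Real.dist_eq]
    exact nn_lip h hw hw0 _ _ t (norm_nonneg _) hN0 ht
  have hC : Tendsto (fun m => ‖(u + s • w m) + t • w (k m)‖) atTop
      (𝓝 (NN φ (NN φ r s) t)) := by
    have h1 : Tendsto (fun m => ‖(u + s • w m) + t • w (k m)‖ - NN φ ‖u + s • w m‖ t) atTop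
        (𝓝 0) := by
      refine squeeze_zero_norm (fun m => ?_) hone
      rw [Real.norm_eq_abs]
      exact hk3 m
    have := hB.add h1
    rw [add_zero] at this
    refine this.congr fun m => ?_
    ring
  refine tendsto_nhds_unique hC (hA.congr fun m => ?_)
  rw [add_assoc]

/-- the asymptotic norm is associative -/
theorem asso : Asso (NN φ) where
  hom := nn_hom h hw hw0
  zl := fun t _ => nn_zl h hw hw0 t
  zr := fun s _ => nn_zr h hw hw0 s
  mono := fun s s' t t' hs hss ht htt =>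
    (nn_mono_left h hw hw0 s s' t hs hss ht).trans
      (nn_mono_right h hw hw0 s' t t' (hs.trans hss) ht htt)
  assoc := nn_assoc h hw hw0

end props

end Pool.Agent.Q93.AN
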