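import Pool.Agent.Q93.AN.Asym

set_option autoImplicit false

namespace Pool.Agent.Q93.AN

open Filter Topology

variable {E : Type*} [NormedAddCommGroup E] [NormedSpace ℝ E] {φ : ℝ → ℝ}

/-- norming functionals of a weakly null sequence converge to zero at every vector if the
asymptotic norm is the maximum -/
lemma fun_null (h : Asy E φ) {w : ℕ → E} (hw : ∀ n, ‖w n‖ = 1) (hw0 : WN w) (hN : NN φ 1 1 = 1)
    {g : ℕ → StrongDual ℝ E} (hg : ∀ n, ‖g n‖ = 1) (hgw : ∀ n, g n (w n) = 1) (u : E) :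
    Tendsto (fun n => g n u) atTop (𝓝 0) := by
  -- unit ball
  have key : ∀ v : E, ‖v‖ ≤ 1 → Tendsto (fun n => max (‖v + w n‖ - 1) 0) atTop (𝓝 0) := by
    intro v hv
    have h1 := lim1 h v zero_le_one hw hw0
    simp only [one_smul] at h1
    have h2 : NN φ ‖v‖ 1 ≤ 1 := by
      exact ((asso h hw hw0).mono _ _ _ _ (norm_nonneg v) hv zero_le_one le_rfl).trans hN.le
    have h3 := (h1.sub_const 1).max (tendsto_const_nhds (x := (0 : ℝ)))
    rwa [max_eq_right (by linarith)] at h3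
  have hb : ∀ v : E, ‖v‖ ≤ 1 → Tendsto (fun n => g n v) atTop (𝓝 0) := by
    intro v hv
    have k1 := key v hv
    have k2 := key (-v) (by rw [norm_neg]; exact hv)
    have hle : ∀ (n : ℕ) (v : E), g n v ≤ max (‖v + w n‖ - 1) 0 := by
      intro n v
      refine le_max_of_le_left ?_
      have : g n (v + w n) ≤ ‖v + w n‖ := by
        refine (le_abs_self _).trans ?_
        have := (g n).le_opNorm (v + w n)
        rw [hg, one_mul] at this
        exact this
      rw [map_add, hgw] at this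
      linarith
    have k3 := k2.neg
    rw [neg_zero] at k3
    refine tendsto_of_tendsto_of_tendsto_of_le_of_le k3 k1 (fun n => ?_) (fun n => hle n v)
    have := hle n (-v)
    rw [map_neg] at this
    show -max (‖-v + w n‖ - 1) 0 ≤ g n v
    linarith
  have h1 := (hb ((‖u‖ + 1)⁻¹ • u) (by
    rw [norm_smul, norm_inv, Real.norm_of_nonneg (by positivity), inv_mul_le_iff₀ (by positivity)]
    linarith)).const_mul (‖u‖ + 1)
  rw [mul_zero] at h1
  refine h1.congr fun n => ?_
  rw [map_smul, smul_eq_mul, ← mul_assoc, mul_inv_cancel₀ (by positivity), one_mul]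

/-- **the asymptotic norm is not the maximum** -/
theorem nn_one_ne (hinf : ¬ FiniteDimensional ℝ E) (hK : BallW E) (h : Asy E φ) :
    NN φ 1 1 ≠ 1 := by
  classical
  intro hN
  obtain ⟨w, hw, hw0⟩ := exists_wn hinf hK
  have hA := asso h hw hw0
  have hex : ∀ n, ∃ g : StrongDual ℝ E, ‖g‖ = 1 ∧ g (w n) = 1 := by
    intro n
    obtain ⟨g, h1, h2⟩ := exists_dual_vector ℝ (w n) (by rw [hw]; exact one_ne_zero)
    refine ⟨g, h1, ?_⟩
    rw [h2, hw]
    rfl
  choose g hg hgw using hex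
  have hg0 := fun_null h hw hw0 hN hg hgw
  -- the step
  have step : ∀ (F : Finset ℕ) (δ : ℝ), 0 < δ → ∃ n : ℕ, n ∉ F ∧
      ‖∑ i ∈ F, w i + w n‖ ≤ max ‖∑ i ∈ F, w i‖ 1 + δ ∧
      (∀ l ∈ F, |g n (w l)| ≤ δ) ∧ (∀ l ∈ F, |g l (w n)| ≤ δ) := by
    intro F δ hδ
    have e1 : ∀ᶠ n in atTop, n ∉ F := by
      filter_upwards [eventually_gt_atTop (F.sup id)] with n hn hnF
      exact absurd (Finset.le_sup (f := id) hnF) (not_le.2 hn)
    have e2 : ∀ᶠ n in atTop, ‖∑ i ∈ F, w i + w n‖ ≤ max ‖∑ i ∈ F, w i‖ 1 + δ := by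
      have h1 := lim1 h (∑ i ∈ F, w i) zero_le_one hw hw0
      simp only [one_smul] at h1
      have h2 : NN φ ‖∑ i ∈ F, w i‖ 1 ≤ max ‖∑ i ∈ F, w i‖ 1 := by
        set s := ‖∑ i ∈ F, w i‖ with hs
        have h3 := hA.mono s (max s 1) 1 (max s 1) (norm_nonneg _) (le_max_left _ _) zero_le_one
          (le_max_right _ _)
        have h4 := hA.hom (max s 1) 1 1 (by positivity) zero_le_one zero_le_one
        rw [mul_one, hN, mul_one] at h4
        rw [h4] at h3
        exact h3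
      filter_upwards [h1.eventually (gt_mem_nhds (show NN φ ‖∑ i ∈ F, w i‖ 1 <
        max ‖∑ i ∈ F, w i‖ 1 + δ by linarith))] with n hn
      exact hn.le
    have e3 : ∀ l ∈ F, ∀ᶠ n in atTop, |g n (w l)| ≤ δ := by
      intro l _
      have := (Metric.tendsto_nhds.1 (hg0 (w l))) δ hδ
      filter_upwards [this] with n hn
      rw [Real.dist_eq, sub_zero] at hn
      exact hn.le
    have e4 : ∀ l ∈ F, ∀ᶠ n in atTop, |g l (w n)| ≤ δ := by
      intro l _
      have := (Metric.tendsto_nhds.1 (hw0 (g l))) δ hδ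
      filter_upwards [this] with n hn
      rw [Real.dist_eq, sub_zero] at hn
      exact hn.le
    have e3' := (Filter.eventually_all_finset F).2 e3
    have e4' := (Filter.eventually_all_finset F).2 e4
    obtain ⟨n, ⟨⟨h1, h2⟩, h3⟩, h4⟩ := (((e1.and e2).and e3').and e4').exists
    exact ⟨n, h1, h2, h3, h4⟩
  choose! nx hx1 hx2 hx3 hx4 using step
  let F : ℕ → Finset ℕ := fun k => Nat.rec (∅ : Finset ℕ)
    (fun k F => insert (nx F ((1 / 2 : ℝ) ^ (k + 3))) F) k
  let a : ℕ → ℕ := fun k => nx (F k) ((1 / 2 : ℝ) ^ (k + 3))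
  have hF : ∀ k, F (k + 1) = insert (a k) (F k) := fun k => rfl
  have hδ : ∀ k : ℕ, (0 : ℝ) < (1 / 2) ^ (k + 3) := fun k => by positivity
  have ha : ∀ k, a k ∉ F k := fun k => hx1 (F k) _ (hδ k)
  have hsum : ∀ k, ∑ i ∈ F (k + 1), w i = ∑ i ∈ F k, w i + w (a k) := by
    intro k
    rw [hF, Finset.sum_insert (ha k), add_comm]
  have hcard : ∀ k, (F k).card = k := by
    intro k
    induction k with
    | zero => rfl
    | succ k ih => rw [hF, Finset.card_insert_of_notMem (ha k), ih]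
  have hmem : ∀ l k, l < k → a l ∈ F k := by
    intro l k hlk
    induction k with
    | zero => omega
    | succ k ih =>
      rw [hF]
      rcases Nat.lt_succ_iff_lt_or_eq.1 hlk with h1 | h1
      · exact Finset.mem_insert_of_mem (ih h1)
      · rw [h1]; exact Finset.mem_insert_self _ _
  have hinj : Function.Injective a := by
    intro l k hlk
    by_contra hne
    rcases lt_or_gt_of_ne hne with h1 | h1
    · exact ha k (hlk ▸ hmem l k h1)
    · exact ha l (hlk ▸ hmem k l h1)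
  have hbd : ∀ k, ‖∑ i ∈ F k, w i‖ ≤ 2 - (1 / 2) ^ k := by
    intro k
    induction k with
    | zero =>
      have : F 0 = ∅ := rfl
      rw [this]
      norm_num
    | succ k ih =>
      rw [hsum]
      have h1 := hx2 (F k) _ (hδ k)
      have h2 : ((1 : ℝ) / 2) ^ k ≤ 1 := pow_le_one₀ (by norm_num) (by norm_num)
      have h3 : max ‖∑ i ∈ F k, w i‖ 1 ≤ 2 - (1 / 2) ^ k := max_le ih (by linarith)
      have h4 : ((1 : ℝ) / 2) ^ (k + 3) = (1 / 8) * (1 / 2) ^ k := by rw [pow_add]; ring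
      have h5 : ((1 : ℝ) / 2) ^ (k + 1) = (1 / 2) * (1 / 2) ^ k := by rw [pow_succ]; ring
      have h6 : (0 : ℝ) < (1 / 2) ^ k := by positivity
      refine h1.trans ?_
      rw [h4, h5]
      linarith
  have hlow : ∀ m k, m + 1 ≤ k → 1 / 2 + (1 / 2 : ℝ) ^ (k + 2) ≤ g (a m) (∑ i ∈ F k, w i) := by
    intro m k hk
    induction k, hk using Nat.le_induction with
    | base =>
      rw [hsum, map_add, hgw, map_sum]
      have h1 : |∑ i ∈ F m, g (a m) (w i)| ≤ m * (1 / 2) ^ (m + 3) := by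
        refine (Finset.abs_sum_le_sum_abs _ _).trans ?_
        calc ∑ i ∈ F m, |g (a m) (w i)| ≤ ∑ _i ∈ F m, ((1 : ℝ) / 2) ^ (m + 3) :=
              Finset.sum_le_sum fun i hi => hx3 (F m) _ (hδ m) i hi
          _ = m * (1 / 2) ^ (m + 3) := by rw [Finset.sum_const, hcard, nsmul_eq_mul]
      have h2 : ((m : ℝ) + 1) ≤ 2 ^ m := by
        have := Nat.lt_two_pow_self (n := m)
        exact_mod_cast this
      have h3 : ((1 : ℝ) / 2) ^ (m + 3) = (1 / 8) * (1 / 2) ^ m := by rw [pow_add]; ring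
      have h4 : ((1 : ℝ) / 2) ^ (m + 1 + 2) = (1 / 8) * (1 / 2) ^ m := by rw [add_assoc, pow_add]; ring
      have h5 : (0 : ℝ) < (1 / 2) ^ m := by positivity
      have h6 : ((m : ℝ) + 1) * (1 / 2) ^ m ≤ 1 := by
        calc ((m : ℝ) + 1) * (1 / 2) ^ m ≤ 2 ^ m * (1 / 2) ^ m :=
              mul_le_mul_of_nonneg_right h2 h5.le
          _ = 1 := by rw [← mul_pow]; norm_num
      rw [h3] at h1
      rw [h4]
      have h7 := (abs_le.1 h1).1
      nlinarith
    | succ k hk ih =>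
      rw [hsum, map_add]
      have h1 := hx4 (F k) _ (hδ k) (a m) (hmem m k hk)
      have h2 := (abs_le.1 h1).1
      have h3 : ((1 : ℝ) / 2) ^ (k + 3) = (1 / 8) * (1 / 2) ^ k := by rw [pow_add]; ring
      have h4 : ((1 : ℝ) / 2) ^ (k + 1 + 2) = (1 / 8) * (1 / 2) ^ k := by
        rw [add_assoc, pow_add]; ring
      have h5 : ((1 : ℝ) / 2) ^ (k + 2) = (1 / 4) * (1 / 2) ^ k := by rw [pow_add]; ring
      have h6 : -((1 : ℝ) / 2) ^ (k + 3) ≤ g (a m) (w (a k)) := h2
      rw [h3] at h6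
      rw [h5] at ih
      rw [h4]
      linarith
  obtain ⟨b, ψ, hψ, hlim⟩ := hK 2 (fun k => ∑ i ∈ F k, w i) (fun k => by
    have := hbd k
    have h6 : (0 : ℝ) < (1 / 2) ^ k := by positivity
    linarith)
  have hb : ∀ m, 1 / 2 ≤ g (a m) b := by
    intro m
    refine ge_of_tendsto (hlim (g (a m))) ?_
    filter_upwards [eventually_ge_atTop (m + 1)] with k hk
    have h1 : m + 1 ≤ ψ k := hk.trans (hψ.le_apply)
    have h2 := hlow m (ψ k) h1
    have h6 : (0 : ℝ) < (1 / 2) ^ (ψ k + 2) := by positivity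
    linarith
  have hat : Tendsto a atTop atTop := hinj.nat_tendsto_atTop
  have h1 := (hg0 b).comp hat
  have h2 := ge_of_tendsto' h1 hb
  norm_num at h2

end Pool.Agent.Q93.AN
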