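import Mathlib

set_option autoImplicit false

namespace Pool.Agent.Q93.AN

/-! # Associative homogeneous functions of two variables are `ℓ_p` norms -/

/-- an associative, homogeneous, monotone function -/
structure Asso (N : ℝ → ℝ → ℝ) : Prop where
  hom : ∀ c s t, 0 ≤ c → 0 ≤ s → 0 ≤ t → N (c * s) (c * t) = c * N s t
  zl : ∀ t, 0 ≤ t → N 0 t = t
  zr : ∀ s, 0 ≤ s → N s 0 = s
  mono : ∀ s s' t t', 0 ≤ s → s ≤ s' → 0 ≤ t → t ≤ t' → N s t ≤ N s' t'
  assoc : ∀ r s t, 0 ≤ r → 0 ≤ s → 0 ≤ t → N (N r s) t = N r (N s t)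

variable {N : ℝ → ℝ → ℝ}

lemma Asso.nonneg (h : Asso N) {s t : ℝ} (hs : 0 ≤ s) (ht : 0 ≤ t) : 0 ≤ N s t := by
  have := h.mono 0 s 0 t le_rfl hs le_rfl ht
  rwa [h.zl 0 le_rfl] at this

/-- the norm of the sum of `n` units -/
noncomputable def un (N : ℝ → ℝ → ℝ) : ℕ → ℝ
  | 0 => 0
  | n + 1 => N (un N n) 1

lemma un_nonneg (h : Asso N) (n : ℕ) : 0 ≤ un N n := by
  induction n with
  | zero => exact le_rfl
  | succ n ih => exact h.nonneg ih zero_le_one

lemma un_one (h : Asso N) : un N 1 = 1 := h.zl 1 zero_le_one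

lemma un_mono (h : Asso N) : Monotone (un N) := by
  refine monotone_nat_of_le_succ fun n => ?_
  calc un N n = N (un N n) 0 := (h.zr _ (un_nonneg h n)).symm
    _ ≤ N (un N n) 1 := h.mono _ _ _ _ (un_nonneg h n) le_rfl le_rfl zero_le_one

lemma un_add (h : Asso N) (m n : ℕ) : N (un N m) (un N n) = un N (m + n) := by
  induction n with
  | zero => exact h.zr _ (un_nonneg h m)
  | succ n ih =>
    show N (un N m) (N (un N n) 1) = N (un N (m + n)) 1
    rw [← h.assoc _ _ _ (un_nonneg h m) (un_nonneg h n) zero_le_one, ih]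

lemma un_mul (h : Asso N) (m n : ℕ) : un N (m * n) = un N m * un N n := by
  induction n with
  | zero =>
    show un N 0 = un N m * 0
    rw [mul_zero]
    rfl
  | succ n ih =>
    rw [Nat.mul_succ, ← un_add h, ih]
    have := h.hom (un N m) (un N n) 1 (un_nonneg h m) (un_nonneg h n) zero_le_one
    rw [mul_one] at this
    exact this

lemma un_pow (h : Asso N) (m k : ℕ) : un N (m ^ k) = un N m ^ k := by
  induction k with
  | zero => rw [pow_zero, pow_zero]; exact un_one h
  | succ k ih => rw [pow_succ, pow_succ, un_mul h, ih]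

lemma one_le_un (h : Asso N) {n : ℕ} (hn : 1 ≤ n) : 1 ≤ un N n := by
  rw [← un_one h]; exact un_mono h hn

/-- the exponent -/
lemma log_un (h : Asso N) (h2 : 1 < un N 2) {n : ℕ} (hn : 1 ≤ n) :
    Real.log (un N n) * Real.log 2 = Real.log (un N 2) * Real.log n := by
  set A := Real.log (un N 2) with hA
  set B := Real.log (un N n) with hB
  have hA0 : 0 < A := Real.log_pos h2
  have hn0 : (0 : ℝ) < n := by exact_mod_cast hn
  have hun : 0 < un N n := lt_of_lt_of_le one_pos (one_le_un h hn)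
  have hl2 : 0 < Real.log 2 := Real.log_pos (by norm_num)
  have key : ∀ k : ℕ, 1 ≤ k → k * |B * Real.log 2 - A * Real.log n| ≤ A * Real.log 2 := by
    intro k hk
    have hk0 : (0 : ℝ) < k := by exact_mod_cast hk
    set j := Nat.log 2 (n ^ k) with hj
    have hnk : n ^ k ≠ 0 := by positivity
    have j1 : 2 ^ j ≤ n ^ k := Nat.pow_log_le_self 2 hnk
    have j2 : n ^ k < 2 ^ (j + 1) := Nat.lt_pow_succ_log_self (by norm_num) _
    have u1 : un N 2 ^ j ≤ un N n ^ k := by
      rw [← un_pow h, ← un_pow h]; exact un_mono h j1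
    have u2 : un N n ^ k ≤ un N 2 ^ (j + 1) := by
      rw [← un_pow h, ← un_pow h]; exact un_mono h j2.le
    have h2pos : 0 < un N 2 := by linarith
    have l1 : (j : ℝ) * A ≤ k * B := by
      have := Real.log_le_log (by positivity) u1
      rwa [Real.log_pow, Real.log_pow] at this
    have l2 : (k : ℝ) * B ≤ (j + 1) * A := by
      have := Real.log_le_log (by positivity) u2
      rw [Real.log_pow, Real.log_pow] at this
      push_cast at this
      exact this
    have l3 : (j : ℝ) * Real.log 2 ≤ k * Real.log n := by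
      have : Real.log ((2 : ℝ) ^ j) ≤ Real.log ((n : ℝ) ^ k) :=
        Real.log_le_log (by positivity) (by exact_mod_cast j1)
      rwa [Real.log_pow, Real.log_pow] at this
    have l4 : (k : ℝ) * Real.log n ≤ (j + 1) * Real.log 2 := by
      have : Real.log ((n : ℝ) ^ k) ≤ Real.log ((2 : ℝ) ^ (j + 1)) :=
        Real.log_le_log (by positivity) (by exact_mod_cast j2.le)
      rw [Real.log_pow, Real.log_pow] at this
      push_cast at this
      exact this
    have e1 : (k : ℝ) * (B * Real.log 2 - A * Real.log n) =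
        (k * B) * Real.log 2 - A * (k * Real.log n) := by ring
    rw [← abs_of_pos hk0, ← abs_mul, e1, abs_le]
    constructor
    · have a1 : (j : ℝ) * A * Real.log 2 ≤ (k * B) * Real.log 2 :=
        mul_le_mul_of_nonneg_right l1 hl2.le
      have a2 : A * (k * Real.log n) ≤ A * ((j + 1) * Real.log 2) :=
        mul_le_mul_of_nonneg_left l4 hA0.le
      nlinarith
    · have a1 : (k * B) * Real.log 2 ≤ (j + 1) * A * Real.log 2 :=
        mul_le_mul_of_nonneg_right l2 hl2.le
      have a2 : A * (j * Real.log 2) ≤ A * (k * Real.log n) :=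
        mul_le_mul_of_nonneg_left l3 hA0.le
      nlinarith
  by_contra hne
  have hpos : 0 < |B * Real.log 2 - A * Real.log n| := abs_pos.2 (sub_ne_zero.2 hne)
  obtain ⟨k, hk⟩ := exists_nat_gt (A * Real.log 2 / |B * Real.log 2 - A * Real.log n|)
  rw [div_lt_iff₀ hpos] at hk
  have hk1 : 1 ≤ k := by
    rcases Nat.eq_zero_or_pos k with h0 | h0
    · rw [h0, Nat.cast_zero, zero_mul] at hk
      have : 0 < A * Real.log 2 := by positivity
      linarith
    · exact h0
  exact absurd (key k hk1) (not_le.2 hk)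

/-- **the classification** -/
theorem Asso.power (h : Asso N) (h1 : N 1 1 ≠ 1) : ∃ p : ℝ, 0 < p ∧
    ∀ s t, 0 ≤ s → 0 ≤ t → N s t ^ p = s ^ p + t ^ p := by
  have hu2 : un N 2 = N 1 1 := by
    show N (un N 1) 1 = N 1 1
    rw [un_one h]
  have h2 : 1 < un N 2 := by
    have := one_le_un h (n := 2) (by norm_num)
    rw [hu2] at this ⊢
    exact lt_of_le_of_ne this h1.symm
  have hl2 : 0 < Real.log 2 := Real.log_pos (by norm_num)
  obtain ⟨p, hp0, hp⟩ : ∃ p : ℝ, 0 < p ∧ ∀ n : ℕ, un N n ^ p = n := by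
    have hA0 : 0 < Real.log (un N 2) := Real.log_pos h2
    refine ⟨Real.log 2 / Real.log (un N 2), by positivity, fun n => ?_⟩
    rcases Nat.eq_zero_or_pos n with rfl | hn
    · have : un N 0 = 0 := rfl
      rw [this, Real.zero_rpow (by positivity), Nat.cast_zero]
    · have hn0 : (0 : ℝ) < n := by exact_mod_cast hn
      have hun : 0 < un N n := lt_of_lt_of_le one_pos (one_le_un h hn)
      rw [Real.rpow_def_of_pos hun]
      have := log_un h h2 hn
      have e : Real.log (un N n) * (Real.log 2 / Real.log (un N 2)) = Real.log n := by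
        rw [← mul_div_assoc, this]
        field_simp
      rw [e, Real.exp_log hn0]
  refine ⟨p, hp0, fun s t hs ht => ?_⟩
  have hNn : 0 ≤ N s t := h.nonneg hs ht
  -- the values at the units
  have hlow : ∀ (q m n : ℕ), 1 ≤ q → (m : ℝ) / q ≤ s ^ p → (n : ℝ) / q ≤ t ^ p →
      ((m : ℝ) + n) / q ≤ N s t ^ p := by
    intro q m n hq hm hn
    have hq0 : (0 : ℝ) < q := by exact_mod_cast hq
    have huq : 0 < un N q := lt_of_lt_of_le one_pos (one_le_un h hq)
    have a1 : ∀ (m : ℕ) (s : ℝ), 0 ≤ s → (m : ℝ) / q ≤ s ^ p → un N m / un N q ≤ s := by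
      intro m s hs hm
      have : (un N m / un N q) ^ p ≤ s ^ p := by
        rw [Real.div_rpow (un_nonneg h m) huq.le, hp, hp]
        exact hm
      exact (Real.rpow_le_rpow_iff (div_nonneg (un_nonneg h m) huq.le) hs hp0).1 this
    have a2 : N (un N m / un N q) (un N n / un N q) ≤ N s t :=
      h.mono _ _ _ _ (div_nonneg (un_nonneg h m) huq.le) (a1 m s hs hm)
        (div_nonneg (un_nonneg h n) huq.le) (a1 n t ht hn)
    have a3 : N (un N m / un N q) (un N n / un N q) = un N (m + n) / un N q := by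
      have := h.hom (un N q)⁻¹ (un N m) (un N n) (by positivity) (un_nonneg h m) (un_nonneg h n)
      rw [un_add h] at this
      rw [div_eq_inv_mul, div_eq_inv_mul, div_eq_inv_mul]
      exact this
    rw [a3] at a2
    have := Real.rpow_le_rpow (div_nonneg (un_nonneg h _) huq.le) a2 hp0.le
    rw [Real.div_rpow (un_nonneg h _) huq.le, hp, hp] at this
    push_cast at this
    exact this
  have hupp : ∀ (q m n : ℕ), 1 ≤ q → s ^ p ≤ (m : ℝ) / q → t ^ p ≤ (n : ℝ) / q →
      N s t ^ p ≤ ((m : ℝ) + n) / q := by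
    intro q m n hq hm hn
    have hq0 : (0 : ℝ) < q := by exact_mod_cast hq
    have huq : 0 < un N q := lt_of_lt_of_le one_pos (one_le_un h hq)
    have a1 : ∀ (m : ℕ) (s : ℝ), 0 ≤ s → s ^ p ≤ (m : ℝ) / q → s ≤ un N m / un N q := by
      intro m s hs hm
      have : s ^ p ≤ (un N m / un N q) ^ p := by
        rw [Real.div_rpow (un_nonneg h m) huq.le, hp, hp]
        exact hm
      exact (Real.rpow_le_rpow_iff hs (div_nonneg (un_nonneg h m) huq.le) hp0).1 this
    have a2 : N s t ≤ N (un N m / un N q) (un N n / un N q) :=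
      h.mono _ _ _ _ hs (a1 m s hs hm) ht (a1 n t ht hn)
    have a3 : N (un N m / un N q) (un N n / un N q) = un N (m + n) / un N q := by
      have := h.hom (un N q)⁻¹ (un N m) (un N n) (by positivity) (un_nonneg h m) (un_nonneg h n)
      rw [un_add h] at this
      rw [div_eq_inv_mul, div_eq_inv_mul, div_eq_inv_mul]
      exact this
    rw [a3] at a2
    have := Real.rpow_le_rpow hNn a2 hp0.le
    rw [Real.div_rpow (un_nonneg h _) huq.le, hp, hp] at this
    push_cast at this
    exact this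
  -- squeeze
  have key : ∀ q : ℕ, 1 ≤ q → (q : ℝ) * |N s t ^ p - (s ^ p + t ^ p)| ≤ 2 := by
    intro q hq
    have hq0 : (0 : ℝ) < q := by exact_mod_cast hq
    have hS : 0 ≤ s ^ p := Real.rpow_nonneg hs p
    have hT : 0 ≤ t ^ p := Real.rpow_nonneg ht p
    set m := ⌊(q : ℝ) * s ^ p⌋₊ with hm
    set n := ⌊(q : ℝ) * t ^ p⌋₊ with hn
    have m1 : (m : ℝ) ≤ q * s ^ p := Nat.floor_le (by positivity)
    have n1 : (n : ℝ) ≤ q * t ^ p := Nat.floor_le (by positivity)
    have m2 : (q : ℝ) * s ^ p < m + 1 := Nat.lt_floor_add_one _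
    have n2 : (q : ℝ) * t ^ p < n + 1 := Nat.lt_floor_add_one _
    have l := hlow q m n hq (by rw [div_le_iff₀ hq0]; linarith) (by rw [div_le_iff₀ hq0]; linarith)
    have u := hupp q (m + 1) (n + 1) hq (by rw [le_div_iff₀ hq0]; push_cast; linarith)
      (by rw [le_div_iff₀ hq0]; push_cast; linarith)
    rw [div_le_iff₀ hq0] at l
    rw [le_div_iff₀ hq0] at u
    push_cast at u
    rw [← abs_of_pos hq0, ← abs_mul, abs_le]
    constructor <;> nlinarith
  by_contra hne
  have hpos : 0 < |N s t ^ p - (s ^ p + t ^ p)| := abs_pos.2 (sub_ne_zero.2 hne)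
  obtain ⟨q, hq⟩ := exists_nat_gt (2 / |N s t ^ p - (s ^ p + t ^ p)|)
  rw [div_lt_iff₀ hpos] at hq
  have hq1 : 1 ≤ q := by
    rcases Nat.eq_zero_or_pos q with h0 | h0
    · rw [h0, Nat.cast_zero, zero_mul] at hq
      linarith
    · exact h0
  exact absurd (key q hq1) (not_le.2 hq)

end Pool.Agent.Q93.AN
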